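import Mathlib

set_option autoImplicit false

/-!
Definitions for MP_cf191d_co: `H`-intersecting families of graphs on `[n] = Fin n` and the
maximum `M_H(n)` of their sizes.
-/

namespace Pool.Agent.Lib.MP_cf191d_co

/-- A family `𝒢` of graphs on `[n]` is `H`-intersecting if for all `G₁, G₂ ∈ 𝒢` the graph
`G₁ ⊓ G₂` contains a (not necessarily induced) copy of `H`. -/
def HIntersecting {W : Type*} (H : SimpleGraph W) {n : ℕ} (𝒢 : Finset (SimpleGraph (Fin n))) :
    Prop :=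
  ∀ G₁ ∈ 𝒢, ∀ G₂ ∈ 𝒢, SimpleGraph.IsContained H (G₁ ⊓ G₂)

/-- `M_H(n)`: the largest size of an `H`-intersecting family of graphs on `[n]`. -/
noncomputable def maxFamily {W : Type*} (H : SimpleGraph W) (n : ℕ) : ℕ :=
  sSup {m : ℕ | ∃ 𝒢 : Finset (SimpleGraph (Fin n)), HIntersecting H 𝒢 ∧ 𝒢.card = m}

end Pool.Agent.Lib.MP_cf191d_co
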