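import Mathlib

set_option autoImplicit false

/-!
Shearer's product theorem for finite set families (the combinatorial form of
Chung, Graham, Frankl and Shearer), proved by induction on the ground set.
-/

namespace Pool.Agent.Lib.MP_cf191d_co

open Finset

/-- Analytic core: if `a i + b i ≤ c i` and at least `t ≥ 1` indices are used, then
`(∏ a)^(1/t) + (∏ b)^(1/t) ≤ (∏ c)^(1/t)`. -/
theorem prod_rpow_add_le {ι : Type*} (I : Finset ι) (t : ℕ) (ht : 1 ≤ t) (hI : t ≤ I.card)
    (a b c : ι → ℝ) (ha : ∀ i ∈ I, 0 ≤ a i) (hb : ∀ i ∈ I, 0 ≤ b i)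
    (habc : ∀ i ∈ I, a i + b i ≤ c i) :
    (∏ i ∈ I, a i) ^ (1 / (t : ℝ)) + (∏ i ∈ I, b i) ^ (1 / (t : ℝ)) ≤
      (∏ i ∈ I, c i) ^ (1 / (t : ℝ)) := by
  have ht0 : (0 : ℝ) < t := by exact_mod_cast ht
  have htne : (1 / (t : ℝ)) ≠ 0 := by positivity
  by_cases hc : ∃ i ∈ I, c i = 0
  · obtain ⟨i, hi, hci⟩ := hc
    have hai : a i = 0 := by linarith [ha i hi, hb i hi, habc i hi]
    have hbi : b i = 0 := by linarith [ha i hi, hb i hi, habc i hi]
    rw [Finset.prod_eq_zero hi hai, Finset.prod_eq_zero hi hbi, Finset.prod_eq_zero hi hci,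
      Real.zero_rpow htne]
    norm_num
  · push Not at hc
    have hcpos : ∀ i ∈ I, 0 < c i := fun i hi =>
      lt_of_le_of_ne (by linarith [ha i hi, hb i hi, habc i hi]) (Ne.symm (hc i hi))
    obtain ⟨I', hI'sub, hI'card⟩ := Finset.exists_subset_card_eq hI
    -- key estimate for ratios
    have key : ∀ f : ι → ℝ, (∀ i ∈ I, 0 ≤ f i) → (∀ i ∈ I, f i ≤ c i) →
        (∏ i ∈ I, f i) ^ (1 / (t : ℝ)) ≤
          (∏ i ∈ I, c i) ^ (1 / (t : ℝ)) * ∑ i ∈ I', (1 / (t : ℝ)) * (f i / c i) := by
      intro f hf0 hfc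
      have h1 : ∏ i ∈ I, f i = (∏ i ∈ I, c i) * ∏ i ∈ I, (f i / c i) := by
        rw [← Finset.prod_mul_distrib]
        refine Finset.prod_congr rfl fun i hi => ?_
        field_simp [(hcpos i hi).ne']
      have hr0 : ∀ i ∈ I, 0 ≤ f i / c i := fun i hi => div_nonneg (hf0 i hi) (hcpos i hi).le
      have hr1 : ∀ i ∈ I, f i / c i ≤ 1 := fun i hi => (div_le_one (hcpos i hi)).2 (hfc i hi)
      have h2 : ∏ i ∈ I, (f i / c i) ≤ ∏ i ∈ I', (f i / c i) := by
        apply Finset.prod_le_prod_of_subset_of_le_one hI'sub hr0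
        intro i hi _
        exact hr1 i hi
      have h3 : (∏ i ∈ I', (f i / c i)) ^ (1 / (t : ℝ)) ≤
          ∑ i ∈ I', (1 / (t : ℝ)) * (f i / c i) := by
        have := Real.geom_mean_le_arith_mean_weighted I' (fun _ => 1 / (t : ℝ))
          (fun i => f i / c i) (fun i _ => by positivity)
          (by rw [Finset.sum_const, hI'card, nsmul_eq_mul]; field_simp)
          (fun i hi => hr0 i (hI'sub hi))
        rwa [Real.finsetProd_rpow _ _ (fun i hi => hr0 i (hI'sub hi))] at this
      rw [h1, Real.mul_rpow (Finset.prod_nonneg fun i hi => (hcpos i hi).le)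
        (Finset.prod_nonneg hr0)]
      apply mul_le_mul_of_nonneg_left _ (Real.rpow_nonneg (Finset.prod_nonneg
        fun i hi => (hcpos i hi).le) _)
      refine le_trans (Real.rpow_le_rpow (Finset.prod_nonneg hr0) h2 (by positivity)) h3
    have ka := key a ha (fun i hi => by linarith [ha i hi, hb i hi, habc i hi])
    have kb := key b hb (fun i hi => by linarith [ha i hi, hb i hi, habc i hi])
    have hsum : ∑ i ∈ I', (1 / (t : ℝ)) * (a i / c i) + ∑ i ∈ I', (1 / (t : ℝ)) * (b i / c i)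
        ≤ 1 := by
      rw [← Finset.sum_add_distrib]
      calc ∑ i ∈ I', ((1 / (t : ℝ)) * (a i / c i) + (1 / (t : ℝ)) * (b i / c i))
          ≤ ∑ i ∈ I', (1 / (t : ℝ)) := by
            apply Finset.sum_le_sum
            intro i hi
            have hiI := hI'sub hi
            rw [← mul_add, ← add_div]
            have : (a i + b i) / c i ≤ 1 := (div_le_one (hcpos i hiI)).2 (habc i hiI)
            calc (1 / (t : ℝ)) * ((a i + b i) / c i) ≤ (1 / (t : ℝ)) * 1 :=
                  mul_le_mul_of_nonneg_left this (by positivity)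
              _ = 1 / (t : ℝ) := mul_one _
        _ = 1 := by rw [Finset.sum_const, hI'card, nsmul_eq_mul]; field_simp
    have hC : 0 ≤ (∏ i ∈ I, c i) ^ (1 / (t : ℝ)) :=
      Real.rpow_nonneg (Finset.prod_nonneg fun i hi => (hcpos i hi).le) _
    calc _ ≤ (∏ i ∈ I, c i) ^ (1 / (t : ℝ)) * ∑ i ∈ I', (1 / (t : ℝ)) * (a i / c i) +
          (∏ i ∈ I, c i) ^ (1 / (t : ℝ)) * ∑ i ∈ I', (1 / (t : ℝ)) * (b i / c i) :=
          add_le_add ka kb
      _ = (∏ i ∈ I, c i) ^ (1 / (t : ℝ)) * (∑ i ∈ I', (1 / (t : ℝ)) * (a i / c i) +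
          ∑ i ∈ I', (1 / (t : ℝ)) * (b i / c i)) := by ring
      _ ≤ (∏ i ∈ I, c i) ^ (1 / (t : ℝ)) * 1 := mul_le_mul_of_nonneg_left hsum hC
      _ = _ := mul_one _

/-- Natural number form of the analytic core. -/
theorem nat_step {ι : Type*} (s : Finset ι) (p : ι → Prop) [DecidablePred p] (t : ℕ) (ht : 1 ≤ t)
    (hI : t ≤ (s.filter p).card) (f0 f1 : ℕ) (a b c : ι → ℕ)
    (h0 : f0 ^ t ≤ ∏ i ∈ s, a i) (h1 : f1 ^ t ≤ ∏ i ∈ s, b i)
    (hin : ∀ i ∈ s, p i → a i + b i ≤ c i)
    (hout : ∀ i ∈ s, ¬ p i → a i ≤ c i ∧ b i ≤ c i) :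
    (f0 + f1) ^ t ≤ ∏ i ∈ s, c i := by
  have ht0 : (0 : ℝ) < t := by exact_mod_cast ht
  have htne : t ≠ 0 := by omega
  have hroot : ∀ (x : ℕ) (P : ℕ), x ^ t ≤ P → (x : ℝ) ≤ (P : ℝ) ^ (1 / (t : ℝ)) := by
    intro x P h
    have h' : ((x : ℝ) ^ t) ≤ (P : ℝ) := by exact_mod_cast h
    calc (x : ℝ) = ((x : ℝ) ^ t) ^ (1 / (t : ℝ)) := by
          rw [one_div, Real.pow_rpow_inv_natCast (by positivity) htne]
      _ ≤ (P : ℝ) ^ (1 / (t : ℝ)) := Real.rpow_le_rpow (by positivity) h' (by positivity)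
  have split : ∀ g : ι → ℕ, ∏ i ∈ s, g i =
      (∏ i ∈ s.filter p, g i) * ∏ i ∈ s.filter (fun i => ¬ p i), g i := by
    intro g
    rw [Finset.prod_filter_mul_prod_filter_not]
  have e0 : f0 ^ t ≤ (∏ i ∈ s.filter p, a i) * ∏ i ∈ s.filter (fun i => ¬ p i), c i := by
    refine h0.trans ?_
    rw [split a]
    refine Nat.mul_le_mul_left _ (Finset.prod_le_prod' fun i hi => ?_)
    rw [Finset.mem_filter] at hi
    exact (hout i hi.1 hi.2).1
  have e1 : f1 ^ t ≤ (∏ i ∈ s.filter p, b i) * ∏ i ∈ s.filter (fun i => ¬ p i), c i := by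
    refine h1.trans ?_
    rw [split b]
    refine Nat.mul_le_mul_left _ (Finset.prod_le_prod' fun i hi => ?_)
    rw [Finset.mem_filter] at hi
    exact (hout i hi.1 hi.2).2
  have r0 := hroot _ _ e0
  have r1 := hroot _ _ e1
  set Q : ℕ := ∏ i ∈ s.filter (fun i => ¬ p i), c i with hQ
  have core := prod_rpow_add_le (s.filter p) t ht hI (fun i => (a i : ℝ)) (fun i => (b i : ℝ))
    (fun i => (c i : ℝ)) (fun i _ => by positivity) (fun i _ => by positivity)
    (fun i hi => by
      rw [Finset.mem_filter] at hi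
      exact_mod_cast hin i hi.1 hi.2)
  push_cast at r0 r1
  rw [Real.mul_rpow (Finset.prod_nonneg fun i _ => by positivity) (by positivity)] at r0 r1
  have hfin : ((f0 + f1 : ℕ) : ℝ) ≤ ((∏ i ∈ s, c i : ℕ) : ℝ) ^ (1 / (t : ℝ)) := by
    rw [split c, ← hQ]
    push_cast
    rw [Real.mul_rpow (Finset.prod_nonneg fun i _ => by positivity) (by positivity)]
    calc (f0 : ℝ) + f1 ≤ (∏ i ∈ s.filter p, (a i : ℝ)) ^ (1 / (t : ℝ)) * (Q : ℝ) ^ (1 / (t : ℝ)) +
          (∏ i ∈ s.filter p, (b i : ℝ)) ^ (1 / (t : ℝ)) * (Q : ℝ) ^ (1 / (t : ℝ)) :=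
          add_le_add r0 r1
      _ = ((∏ i ∈ s.filter p, (a i : ℝ)) ^ (1 / (t : ℝ)) +
          (∏ i ∈ s.filter p, (b i : ℝ)) ^ (1 / (t : ℝ))) * (Q : ℝ) ^ (1 / (t : ℝ)) := by ring
      _ ≤ (∏ i ∈ s.filter p, (c i : ℝ)) ^ (1 / (t : ℝ)) * (Q : ℝ) ^ (1 / (t : ℝ)) :=
          mul_le_mul_of_nonneg_right core (by positivity)
  have hpow : (((f0 + f1 : ℕ) : ℝ)) ^ t ≤ ((∏ i ∈ s, c i : ℕ) : ℝ) := by
    calc (((f0 + f1 : ℕ) : ℝ)) ^ t ≤ (((∏ i ∈ s, c i : ℕ) : ℝ) ^ (1 / (t : ℝ))) ^ t :=
          pow_le_pow_left₀ (by positivity) hfin t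
      _ = ((∏ i ∈ s, c i : ℕ) : ℝ) := by
          rw [one_div, Real.rpow_inv_natCast_pow (by positivity) htne]
  exact_mod_cast hpow

/-- **Shearer's product theorem** for set families: if each element of the ground set `U` lies in
at least `t ≥ 1` of the sets `S i`, then `|F|^t ≤ ∏ |{A ∩ S i : A ∈ F}|`. -/
theorem shearer {α ι : Type*} [DecidableEq α] (s : Finset ι) (S : ι → Finset α) (t : ℕ)
    (ht : 1 ≤ t) (U : Finset α) :
    ∀ F : Finset (Finset α), (∀ A ∈ F, A ⊆ U) →
      (∀ x ∈ U, t ≤ (s.filter (fun i => x ∈ S i)).card) →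
      F.card ^ t ≤ ∏ i ∈ s, (F.image (fun A => A ∩ S i)).card := by
  induction U using Finset.induction_on with
  | empty =>
    intro F hF _
    by_cases hne : F.Nonempty
    · have hsub : F ⊆ {∅} := fun A hA => by
        rw [Finset.mem_singleton]
        exact Finset.subset_empty.1 (hF A hA)
      have hc : F.card ≤ 1 := by
        simpa using Finset.card_le_card hsub
      calc F.card ^ t ≤ 1 ^ t := Nat.pow_le_pow_left hc t
        _ = 1 := one_pow t
        _ ≤ ∏ i ∈ s, (F.image (fun A => A ∩ S i)).card := by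
          apply Finset.one_le_prod'
          intro i _
          exact (hne.image _).card_pos
    · rw [Finset.not_nonempty_iff_eq_empty] at hne
      subst hne
      have : (0 : ℕ) ^ t = 0 := by
        rw [Nat.pow_eq_zero]
        exact ⟨rfl, by omega⟩
      rw [Finset.card_empty, this]
      exact Nat.zero_le _
  | insert x U' hx ih =>
    intro F hF hcov
    set F0 := F.filter (fun A => x ∉ A) with hF0
    set F1 := (F.filter (fun A => x ∈ A)).image (fun A => A.erase x) with hF1
    have hF0U : ∀ A ∈ F0, A ⊆ U' := by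
      intro A hA
      rw [hF0, Finset.mem_filter] at hA
      intro y hy
      have := hF A hA.1 hy
      rw [Finset.mem_insert] at this
      rcases this with h | h
      · subst h; exact absurd hy hA.2
      · exact h
    have hF1U : ∀ A ∈ F1, A ⊆ U' := by
      intro A hA
      rw [hF1, Finset.mem_image] at hA
      obtain ⟨B, hB, rfl⟩ := hA
      rw [Finset.mem_filter] at hB
      intro y hy
      rw [Finset.mem_erase] at hy
      have := hF B hB.1 hy.2
      rw [Finset.mem_insert] at this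
      rcases this with h | h
      · exact absurd h hy.1
      · exact h
    have hcov' : ∀ y ∈ U', t ≤ (s.filter (fun i => y ∈ S i)).card := fun y hy =>
      hcov y (Finset.mem_insert_of_mem hy)
    have i0 := ih F0 hF0U hcov'
    have i1 := ih F1 hF1U hcov'
    have hinj : Set.InjOn (fun A : Finset α => A.erase x)
        ((F.filter (fun A => x ∈ A) : Finset (Finset α)) : Set (Finset α)) := by
      intro A hA B hB h
      rw [Finset.mem_coe, Finset.mem_filter] at hA hB
      have h' : A.erase x = B.erase x := h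
      rw [← Finset.insert_erase hA.2, ← Finset.insert_erase hB.2, h']
    have hcard : F.card = F0.card + F1.card := by
      rw [hF1, Finset.card_image_of_injOn hinj, hF0, add_comm]
      exact (Finset.card_filter_add_card_filter_not (s := F) (fun A => x ∈ A)).symm
    rw [hcard]
    refine nat_step s (fun i => x ∈ S i) t ht (hcov x (Finset.mem_insert_self _ _)) _ _ _ _ _
      i0 i1 ?_ ?_
    · -- indices containing x
      intro i _ hxi
      have hdisj : Disjoint (F0.image (fun A => A ∩ S i))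
          ((F1.image (fun A => A ∩ S i)).image (fun B => insert x B)) := by
        rw [Finset.disjoint_left]
        intro B hB hB'
        rw [Finset.mem_image] at hB hB'
        obtain ⟨A, hA, rfl⟩ := hB
        obtain ⟨C, _, hC⟩ := hB'
        have hxA : x ∉ A := by
          rw [hF0, Finset.mem_filter] at hA
          exact hA.2
        have : x ∈ A ∩ S i := by rw [← hC]; exact Finset.mem_insert_self _ _
        exact hxA (Finset.mem_inter.1 this).1
      have hinj2 : Set.InjOn (fun B : Finset α => insert x B)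
          ((F1.image (fun A => A ∩ S i) : Finset (Finset α)) : Set (Finset α)) := by
        intro B hB C hC h
        rw [Finset.mem_coe, Finset.mem_image] at hB hC
        obtain ⟨B', hB', rfl⟩ := hB
        obtain ⟨C', hC', rfl⟩ := hC
        have hxB : x ∉ B' ∩ S i := fun hh => hx (hF1U B' hB' (Finset.mem_inter.1 hh).1)
        have hxC : x ∉ C' ∩ S i := fun hh => hx (hF1U C' hC' (Finset.mem_inter.1 hh).1)
        have h' : insert x (B' ∩ S i) = insert x (C' ∩ S i) := h
        rw [← Finset.erase_insert hxB, ← Finset.erase_insert hxC, h']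
      rw [← Finset.card_image_of_injOn hinj2, ← Finset.card_union_of_disjoint hdisj]
      apply Finset.card_le_card
      intro B hB
      rw [Finset.mem_union] at hB
      rcases hB with hB | hB
      · rw [Finset.mem_image] at hB ⊢
        obtain ⟨A, hA, rfl⟩ := hB
        exact ⟨A, (Finset.mem_filter.1 hA).1, rfl⟩
      · rw [Finset.mem_image] at hB
        obtain ⟨C, hC, rfl⟩ := hB
        rw [Finset.mem_image] at hC
        obtain ⟨D, hD, rfl⟩ := hC
        rw [hF1, Finset.mem_image] at hD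
        obtain ⟨A, hA, rfl⟩ := hD
        rw [Finset.mem_filter] at hA
        rw [Finset.mem_image]
        refine ⟨A, hA.1, ?_⟩
        ext y
        simp only [Finset.mem_inter, Finset.mem_insert, Finset.mem_erase]
        constructor
        · rintro ⟨h1, h2⟩
          by_cases hyx : y = x
          · exact Or.inl hyx
          · exact Or.inr ⟨⟨hyx, h1⟩, h2⟩
        · rintro (h | ⟨⟨_, h1⟩, h2⟩)
          · subst h; exact ⟨hA.2, hxi⟩
          · exact ⟨h1, h2⟩
    · intro i _ hxi
      constructor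
      · apply Finset.card_le_card
        intro B hB
        rw [Finset.mem_image] at hB ⊢
        obtain ⟨A, hA, rfl⟩ := hB
        exact ⟨A, (Finset.mem_filter.1 hA).1, rfl⟩
      · apply Finset.card_le_card
        intro B hB
        rw [Finset.mem_image] at hB
        obtain ⟨D, hD, rfl⟩ := hB
        rw [hF1, Finset.mem_image] at hD
        obtain ⟨A, hA, rfl⟩ := hD
        rw [Finset.mem_filter] at hA
        rw [Finset.mem_image]
        refine ⟨A, hA.1, ?_⟩
        ext y
        simp only [Finset.mem_inter, Finset.mem_erase]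
        constructor
        · rintro ⟨h1, h2⟩
          refine ⟨⟨?_, h1⟩, h2⟩
          rintro rfl
          exact hxi h2
        · rintro ⟨⟨_, h1⟩, h2⟩
          exact ⟨h1, h2⟩

end Pool.Agent.Lib.MP_cf191d_co
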