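import Mathlib
import Pool.Agent.Lib.MP_cf191d_co.Defs
import Pool.Agent.Lib.MP_cf191d_co.Shearer

set_option autoImplicit false

/-!
Proof that the chromatic-number bound `M_H(n) ≤ 2^(C(n,2) - (χ(H) - 1))` is never attained when
`H` has at least two edges.
-/

namespace Pool.Agent.Lib.MP_cf191d_co

open Finset

/-- An intersecting family of subsets of `S` has at most `2^(|S|-1)` members. -/
theorem intersecting_bound {α : Type*} [DecidableEq α] (S : Finset α) (F : Finset (Finset α))
    (hF : ∀ A ∈ F, A ⊆ S) (hint : ∀ A ∈ F, ∀ B ∈ F, (A ∩ B).Nonempty) :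
    2 * F.card ≤ 2 ^ S.card := by
  have hinj : Set.InjOn (fun A : Finset α => S \ A) (F : Set (Finset α)) := by
    intro A hA B hB h
    have h' : S \ A = S \ B := h
    rw [← Finset.sdiff_sdiff_eq_self (hF A hA), ← Finset.sdiff_sdiff_eq_self (hF B hB), h']
  have hdisj : Disjoint F (F.image (fun A => S \ A)) := by
    rw [Finset.disjoint_left]
    intro A hA hA'
    rw [Finset.mem_image] at hA'
    obtain ⟨B, hB, hBA⟩ := hA'
    obtain ⟨x, hx⟩ := hint A hA B hB
    rw [Finset.mem_inter, ← hBA, Finset.mem_sdiff] at hx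
    exact hx.1.2 hx.2
  have hsub : F ∪ F.image (fun A => S \ A) ⊆ S.powerset := by
    intro A hA
    rw [Finset.mem_union] at hA
    rw [Finset.mem_powerset]
    rcases hA with hA | hA
    · exact hF A hA
    · rw [Finset.mem_image] at hA
      obtain ⟨B, _, rfl⟩ := hA
      exact Finset.sdiff_subset
  have := Finset.card_le_card hsub
  rw [Finset.card_union_of_disjoint hdisj, Finset.card_image_of_injOn hinj,
    Finset.card_powerset] at this
  omega

/-- A family of subsets of `S` with pairwise (and self) intersections of size at least two has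
fewer than `2^(|S|-1)` members. -/
theorem two_intersecting_bound {α : Type*} [DecidableEq α] (S : Finset α)
    (F : Finset (Finset α)) (hF : ∀ A ∈ F, A ⊆ S)
    (hint : ∀ A ∈ F, ∀ B ∈ F, 2 ≤ (A ∩ B).card) :
    2 * F.card < 2 ^ S.card := by
  by_contra hcon
  rw [not_lt] at hcon
  have hinj : Set.InjOn (fun A : Finset α => S \ A) (F : Set (Finset α)) := by
    intro A hA B hB h
    have h' : S \ A = S \ B := h
    rw [← Finset.sdiff_sdiff_eq_self (hF A hA), ← Finset.sdiff_sdiff_eq_self (hF B hB), h']
  have hdisj : Disjoint F (F.image (fun A => S \ A)) := by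
    rw [Finset.disjoint_left]
    intro A hA hA'
    rw [Finset.mem_image] at hA'
    obtain ⟨B, hB, hBA⟩ := hA'
    have h2 := hint A hA B hB
    have : (A ∩ B).Nonempty := by
      rw [← Finset.card_pos]; omega
    obtain ⟨x, hx⟩ := this
    rw [Finset.mem_inter, ← hBA, Finset.mem_sdiff] at hx
    exact hx.1.2 hx.2
  have hsub : F ∪ F.image (fun A => S \ A) ⊆ S.powerset := by
    intro A hA
    rw [Finset.mem_union] at hA
    rw [Finset.mem_powerset]
    rcases hA with hA | hA
    · exact hF A hA
    · rw [Finset.mem_image] at hA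
      obtain ⟨B, _, rfl⟩ := hA
      exact Finset.sdiff_subset
  have hcard : (F ∪ F.image (fun A => S \ A)).card = 2 * F.card := by
    rw [Finset.card_union_of_disjoint hdisj, Finset.card_image_of_injOn hinj]
    omega
  have heq : F ∪ F.image (fun A => S \ A) = S.powerset := by
    apply Finset.eq_of_subset_of_card_le hsub
    rw [hcard, Finset.card_powerset]
    exact hcon
  have hne : F.Nonempty := by
    rw [← Finset.card_pos]
    have : 0 < 2 ^ S.card := by positivity
    omega
  obtain ⟨X, hX, hmin⟩ := Finset.exists_min_image F (fun A => A.card) hne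
  have hXX := hint X hX X hX
  rw [Finset.inter_self] at hXX
  have hXne : X.Nonempty := by rw [← Finset.card_pos]; omega
  obtain ⟨x, hx⟩ := hXne
  have hnot : X.erase x ∉ F := by
    intro h
    have := hmin _ h
    rw [Finset.card_erase_of_mem hx] at this
    omega
  have hmem : X.erase x ∈ S.powerset := by
    rw [Finset.mem_powerset]
    exact (Finset.erase_subset _ _).trans (hF X hX)
  rw [← heq, Finset.mem_union] at hmem
  rcases hmem with h | h
  · exact hnot h
  · rw [Finset.mem_image] at h
    obtain ⟨B, hB, hBX⟩ := h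
    have h2 := hint X hX B hB
    have hsub1 : X ∩ B ⊆ {x} := by
      intro y hy
      rw [Finset.mem_inter] at hy
      rw [Finset.mem_singleton]
      by_contra hyx
      have : y ∈ X.erase x := Finset.mem_erase.2 ⟨hyx, hy.1⟩
      rw [← hBX, Finset.mem_sdiff] at this
      exact this.2 hy.2
    have := Finset.card_le_card hsub1
    rw [Finset.card_singleton] at this
    omega

/-- The number of maps `Fin n → Fin k` with `c u = c v`, for `u ≠ v`, is `k^(n-1)`. -/
theorem card_agree {n k : ℕ} {u v : Fin n} (huv : u ≠ v) :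
    ((Finset.univ : Finset (Fin n → Fin k)).filter (fun c => c u = c v)).card = k ^ (n - 1) := by
  have h1 : ((Finset.univ : Finset (Fin n → Fin k)).filter (fun c => c u = c v)).card =
      (Finset.univ : Finset ({j : Fin n // j ≠ v} → Fin k)).card := by
    apply Finset.card_bij (fun c _ => fun j : {j : Fin n // j ≠ v} => c j.1)
    · intro c _
      exact Finset.mem_univ _
    · intro c hc d hd h
      rw [Finset.mem_filter] at hc hd
      funext j
      by_cases hj : j = v
      · subst hj
        rw [← hc.2, ← hd.2]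
        exact congrFun h ⟨u, huv⟩
      · exact congrFun h ⟨j, hj⟩
    · intro g _
      refine ⟨fun j => if h : j = v then g ⟨u, huv⟩ else g ⟨j, h⟩, ?_, ?_⟩
      · rw [Finset.mem_filter]
        refine ⟨Finset.mem_univ _, ?_⟩
        simp [huv]
      · funext j
        simp [j.2]
  rw [h1, Finset.card_univ, Fintype.card_fun, Fintype.card_fin]
  congr 1
  rw [Fintype.card_subtype_compl]
  simp

/-- The main case: pairwise intersections that are not `k`-colourable, `k ≥ 2`. -/
theorem non_colorable_bound {n k : ℕ} (hk : 2 ≤ k) (𝒢 : Finset (SimpleGraph (Fin n)))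
    (h𝒢 : ∀ G₁ ∈ 𝒢, ∀ G₂ ∈ 𝒢, ¬ (G₁ ⊓ G₂).Colorable k) :
    𝒢.card * 2 ^ k < 2 ^ (n.choose 2) := by
  classical
  by_contra hcon
  rw [not_lt] at hcon
  have hne : 𝒢.Nonempty := by
    rw [← Finset.card_pos]
    rcases Nat.eq_zero_or_pos 𝒢.card with h | h
    · rw [h] at hcon
      have : 0 < 2 ^ (n.choose 2) := by positivity
      omega
    · exact h
  obtain ⟨G₀, hG₀⟩ := hne
  have hn : k < n := by
    by_contra hnk
    rw [not_lt] at hnk
    apply h𝒢 G₀ hG₀ G₀ hG₀
    have := SimpleGraph.colorable_of_fintype (G₀ ⊓ G₀)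
    rw [Fintype.card_fin] at this
    exact this.mono hnk
  -- set-family data
  set U : Finset (Sym2 (Fin n)) := (⊤ : SimpleGraph (Fin n)).edgeFinset with hU
  have hUcard : U.card = n.choose 2 := by
    rw [hU, SimpleGraph.card_edgeFinset_top_eq_card_choose_two, Fintype.card_fin]
  set F : Finset (Finset (Sym2 (Fin n))) := 𝒢.image (fun G => G.edgeFinset) with hF
  have hFcard : F.card = 𝒢.card := by
    rw [hF]
    apply Finset.card_image_of_injective
    intro G G' h
    have h' : G.edgeFinset = G'.edgeFinset := h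
    rwa [SimpleGraph.edgeFinset_inj] at h'
  have hFU : ∀ A ∈ F, A ⊆ U := by
    intro A hA
    rw [hF, Finset.mem_image] at hA
    obtain ⟨G, _, rfl⟩ := hA
    rw [hU, SimpleGraph.edgeFinset_subset_edgeFinset]
    exact le_top
  let S : (Fin n → Fin k) → Finset (Sym2 (Fin n)) :=
    fun c => U.filter (fun e => (e.map c).IsDiag)
  -- each pair is monochromatic in exactly k^(n-1) colourings
  have hcov : ∀ e ∈ U, ((Finset.univ : Finset (Fin n → Fin k)).filter
      (fun c => e ∈ S c)).card = k ^ (n - 1) := by
    intro e he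
    induction e using Sym2.ind with
    | _ u v =>
      have huv : u ≠ v := by
        rw [hU, SimpleGraph.mem_edgeFinset, SimpleGraph.mem_edgeSet, SimpleGraph.top_adj] at he
        exact he
      rw [← card_agree (k := k) huv]
      congr 1
      ext c
      simp only [S, Finset.mem_filter, Finset.mem_univ, true_and, he, Sym2.map_mk,
        Sym2.mk_isDiag_iff]
  -- apply Shearer
  have hsh := shearer (Finset.univ : Finset (Fin n → Fin k)) S (k ^ (n - 1))
    (Nat.one_le_pow _ _ (by omega)) U F hFU (fun e he => (hcov e he).ge)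
  set t := k ^ (n - 1) with ht
  -- projections are intersecting
  have hproj : ∀ c : Fin n → Fin k,
      2 * (F.image (fun A => A ∩ S c)).card ≤ 2 ^ (S c).card := by
    intro c
    apply intersecting_bound
    · intro A hA
      rw [Finset.mem_image] at hA
      obtain ⟨B, _, rfl⟩ := hA
      exact Finset.inter_subset_right
    · intro A hA B hB
      rw [Finset.mem_image] at hA hB
      obtain ⟨A', hA', rfl⟩ := hA
      obtain ⟨B', hB', rfl⟩ := hB
      rw [hF, Finset.mem_image] at hA' hB'
      obtain ⟨G₁, hG₁, rfl⟩ := hA'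
      obtain ⟨G₂, hG₂, rfl⟩ := hB'
      have hnc := h𝒢 G₁ hG₁ G₂ hG₂
      have : ∃ u v, (G₁ ⊓ G₂).Adj u v ∧ c u = c v := by
        by_contra hno
        push Not at hno
        exact hnc ⟨SimpleGraph.Coloring.mk c (fun {u v} huv => hno u v huv)⟩
      obtain ⟨u, v, huv, hcuv⟩ := this
      rw [SimpleGraph.inf_adj] at huv
      have hmemS : s(u, v) ∈ S c := by
        simp only [S, Finset.mem_filter, Sym2.map_mk, Sym2.mk_isDiag_iff]
        refine ⟨?_, hcuv⟩
        rw [hU, SimpleGraph.mem_edgeFinset, SimpleGraph.mem_edgeSet, SimpleGraph.top_adj]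
        exact huv.1.ne
      refine ⟨s(u, v), ?_⟩
      simp only [Finset.mem_inter, SimpleGraph.mem_edgeFinset, SimpleGraph.mem_edgeSet]
      exact ⟨⟨huv.1, hmemS⟩, ⟨huv.2, hmemS⟩⟩
  -- constant colourings
  let Cst : Finset (Fin n → Fin k) := Finset.univ.image (fun a : Fin k => (fun _ : Fin n => a))
  have hCstcard : Cst.card = k := by
    have hinj : Function.Injective (fun a : Fin k => (fun _ : Fin n => a)) := by
      intro a b h
      exact congrFun h ⟨0, by omega⟩
    rw [Finset.card_image_of_injective _ hinj, Finset.card_univ, Fintype.card_fin]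
  have hSCst : ∀ c ∈ Cst, S c = U := by
    intro c hc
    rw [Finset.mem_image] at hc
    obtain ⟨a, _, rfl⟩ := hc
    apply Finset.filter_true_of_mem
    intro e _
    induction e using Sym2.ind with
    | _ u v => simp
  have hsum : ∑ c : Fin n → Fin k, (S c).card = U.card * t := by
    have h1 : ∀ c : Fin n → Fin k, (S c).card = ∑ e ∈ U, if e ∈ S c then 1 else 0 := by
      intro c
      rw [Finset.sum_boole]
      simp only [Nat.cast_id]
      congr 1
      ext e
      simp only [S, Finset.mem_filter]
      tauto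
    simp_rw [h1]
    rw [Finset.sum_comm]
    have h2 : ∀ e ∈ U, (∑ c : Fin n → Fin k, if e ∈ S c then 1 else 0) = t := by
      intro e he
      rw [Finset.sum_boole]
      simp only [Nat.cast_id]
      exact hcov e he
    rw [Finset.sum_congr rfl h2, Finset.sum_const, smul_eq_mul]
  have hsplitS : ∑ c ∈ Cstᶜ, (S c).card + U.card * k = U.card * t := by
    rw [← hsum, ← Finset.sum_compl_add_sum Cst]
    congr 1
    rw [Finset.sum_congr rfl (fun c hc => by rw [hSCst c hc]), Finset.sum_const, hCstcard,
      smul_eq_mul, mul_comm]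
  have hcompl : Cstᶜ.card + k = k * t := by
    have h1 := Finset.card_compl_add_card Cst
    rw [hCstcard, Fintype.card_fun, Fintype.card_fin, Fintype.card_fin] at h1
    rw [h1, ht, ← pow_succ']
    congr 1
    omega
  -- split the product
  set g := F.card with hg
  have hP : g ^ t * 2 ^ Cstᶜ.card ≤ g ^ k * 2 ^ (∑ c ∈ Cstᶜ, (S c).card) := by
    calc g ^ t * 2 ^ Cstᶜ.card
        ≤ (∏ c : Fin n → Fin k, (F.image (fun A => A ∩ S c)).card) * 2 ^ Cstᶜ.card :=
          Nat.mul_le_mul_right _ hsh
      _ = (∏ c ∈ Cst, (F.image (fun A => A ∩ S c)).card) *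
            ∏ c ∈ Cstᶜ, (2 * (F.image (fun A => A ∩ S c)).card) := by
          rw [← Finset.prod_mul_prod_compl Cst, Finset.prod_mul_distrib, Finset.prod_const]
          ring
      _ ≤ g ^ k * ∏ c ∈ Cstᶜ, 2 ^ (S c).card := by
          apply Nat.mul_le_mul
          · calc (∏ c ∈ Cst, (F.image (fun A => A ∩ S c)).card) ≤ ∏ c ∈ Cst, g :=
                Finset.prod_le_prod' fun c _ => Finset.card_image_le
              _ = g ^ k := by rw [Finset.prod_const, hCstcard]
          · exact Finset.prod_le_prod' fun c _ => hproj c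
      _ = g ^ k * 2 ^ (∑ c ∈ Cstᶜ, (S c).card) := by
          rw [Finset.prod_pow_eq_pow_sum]
  have hkt : k ≤ t := by
    rw [ht]
    calc k = k ^ 1 := (pow_one k).symm
      _ ≤ k ^ (n - 1) := Nat.pow_le_pow_right (by omega) (by omega)
  obtain ⟨r, hr⟩ := Nat.exists_eq_add_of_le hkt
  have hgpos : 0 < g := by
    rw [hFcard]
    exact Finset.card_pos.2 ⟨G₀, hG₀⟩
  have hexp : ∑ c ∈ Cstᶜ, (S c).card = U.card * r := by
    have : ∑ c ∈ Cstᶜ, (S c).card + U.card * k = U.card * r + U.card * k := by
      rw [hsplitS, hr]; ring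
    omega
  have hcc : Cstᶜ.card + k = k * k + k * r := by
    rw [hcompl, hr]; ring
  -- cancel g^k
  have hP2 : g ^ r * 2 ^ Cstᶜ.card ≤ 2 ^ (U.card * r) := by
    rw [hexp, hr, pow_add] at hP
    have hgk : 0 < g ^ k := by positivity
    apply Nat.le_of_mul_le_mul_left _ hgk
    calc g ^ k * (g ^ r * 2 ^ Cstᶜ.card) = g ^ k * g ^ r * 2 ^ Cstᶜ.card := by ring
      _ ≤ _ := hP
  have hQ : 2 ^ (U.card * r) ≤ g ^ r * 2 ^ (k * r) := by
    calc 2 ^ (U.card * r) = (2 ^ (n.choose 2)) ^ r := by rw [hUcard, pow_mul]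
      _ ≤ (𝒢.card * 2 ^ k) ^ r := Nat.pow_le_pow_left hcon r
      _ = g ^ r * 2 ^ (k * r) := by rw [mul_pow, ← pow_mul, hFcard]
  have hfin : g ^ r * 2 ^ Cstᶜ.card ≤ g ^ r * 2 ^ (k * r) := hP2.trans hQ
  have hgr : 0 < g ^ r := by positivity
  have h3 : 2 ^ Cstᶜ.card ≤ 2 ^ (k * r) := Nat.le_of_mul_le_mul_left hfin hgr
  have h4 : Cstᶜ.card ≤ k * r := (Nat.pow_le_pow_iff_right (by norm_num)).1 h3
  have h5 : k < k * k := by nlinarith
  omega

/-- The integer form for every `H` with at least two edges. -/
theorem family_bound {W : Type*} [Finite W] (H : SimpleGraph W) (hH : 2 ≤ H.edgeSet.ncard)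
    (n : ℕ) (𝒢 : Finset (SimpleGraph (Fin n))) (h𝒢 : HIntersecting H 𝒢) :
    𝒢.card * 2 ^ (H.chromaticNumber.toNat - 1) < 2 ^ (n.choose 2) := by
  classical
  -- H has an edge, so its chromatic number is at least 2
  have hcol : H.Colorable H.chromaticNumber.toNat :=
    SimpleGraph.colorable_chromaticNumber_of_fintype H
  have hnot : ∀ k < H.chromaticNumber.toNat, ¬ H.Colorable k := by
    intro k hk hc
    have h1 := hc.chromaticNumber_le
    have h2 : H.chromaticNumber ≠ ⊤ := SimpleGraph.chromaticNumber_ne_top_iff_exists.2 ⟨_, hcol⟩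
    have h3 : (H.chromaticNumber.toNat : ℕ∞) = H.chromaticNumber := ENat.natCast_toNat h2
    rw [← h3] at h1
    have : H.chromaticNumber.toNat ≤ k := by exact_mod_cast h1
    omega
  have hnt : H.edgeSet.Nonempty := by
    rw [Set.nonempty_iff_ne_empty]
    intro h
    rw [h, Set.ncard_empty] at hH
    omega
  obtain ⟨e, he⟩ := hnt
  have hchi : 2 ≤ H.chromaticNumber.toNat := by
    by_contra hlt
    rw [not_le] at hlt
    have hc1 : H.Colorable 1 := hcol.mono (by omega)
    obtain ⟨C⟩ := hc1
    induction e using Sym2.ind with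
    | _ u v =>
      rw [SimpleGraph.mem_edgeSet] at he
      exact C.valid he (Subsingleton.elim _ _)
  rcases Nat.lt_or_ge 2 H.chromaticNumber.toNat with h3 | h2
  · -- chromatic number at least 3
    apply non_colorable_bound (by omega)
    intro G₁ hG₁ G₂ hG₂ hc
    obtain ⟨f⟩ := h𝒢 G₁ hG₁ G₂ hG₂
    obtain ⟨C⟩ := hc
    exact hnot _ (by omega) ⟨C.comp f.toHom⟩
  · -- chromatic number 2
    have hchi2 : H.chromaticNumber.toNat = 2 := le_antisymm h2 hchi
    rw [hchi2]
    set U : Finset (Sym2 (Fin n)) := (⊤ : SimpleGraph (Fin n)).edgeFinset with hU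
    have hUcard : U.card = n.choose 2 := by
      rw [hU, SimpleGraph.card_edgeFinset_top_eq_card_choose_two, Fintype.card_fin]
    set F : Finset (Finset (Sym2 (Fin n))) := 𝒢.image (fun G => G.edgeFinset) with hF
    have hFcard : F.card = 𝒢.card := by
      rw [hF]
      apply Finset.card_image_of_injective
      intro G G' h
      have h' : G.edgeFinset = G'.edgeFinset := h
      rwa [SimpleGraph.edgeFinset_inj] at h'
    have key : 2 * F.card < 2 ^ U.card := by
      apply two_intersecting_bound
      · intro A hA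
        rw [hF, Finset.mem_image] at hA
        obtain ⟨G, _, rfl⟩ := hA
        rw [hU, SimpleGraph.edgeFinset_subset_edgeFinset]
        exact le_top
      · intro A hA B hB
        rw [hF, Finset.mem_image] at hA hB
        obtain ⟨G₁, hG₁, rfl⟩ := hA
        obtain ⟨G₂, hG₂, rfl⟩ := hB
        obtain ⟨f⟩ := h𝒢 G₁ hG₁ G₂ hG₂
        have hsub : Sym2.map f '' H.edgeSet ⊆
            ((G₁.edgeFinset ∩ G₂.edgeFinset : Finset (Sym2 (Fin n))) : Set (Sym2 (Fin n))) := by
          rintro _ ⟨e, he, rfl⟩
          induction e using Sym2.ind with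
          | _ u v =>
            rw [SimpleGraph.mem_edgeSet] at he
            have h1 := f.toHom.map_adj he
            rw [SimpleGraph.inf_adj] at h1
            simp only [Sym2.map_mk, Finset.coe_inter, SimpleGraph.coe_edgeFinset,
              Set.mem_inter_iff, SimpleGraph.mem_edgeSet]
            exact h1
        have hcard1 : (Sym2.map f '' H.edgeSet).ncard = H.edgeSet.ncard :=
          Set.ncard_image_of_injective _ (Sym2.map.injective f.injective)
        have hcard2 := Set.ncard_le_ncard hsub (Finset.finite_toSet _)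
        rw [hcard1, Set.ncard_coe_finset] at hcard2
        omega
    rw [hFcard, hUcard] at key
    simpa [mul_comm] using key

/-- **Main theorem.** For every finite graph `H` with at least two edges and every `n`,
`M_H(n) < 2^(C(n,2) - (χ(H) - 1))`: the chromatic-number bound is never attained. -/
theorem never_attained {W : Type*} [Finite W] (H : SimpleGraph W) (hH : 2 ≤ H.edgeSet.ncard) (n : ℕ) :
    (maxFamily H n : ℝ) <
      (2 : ℝ) ^ ((n.choose 2 : ℝ) - ((H.chromaticNumber.toNat : ℝ) - 1)) := by
  classical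
  -- the maximum is attained by some family
  have hmem : maxFamily H n ∈ {m : ℕ | ∃ 𝒢 : Finset (SimpleGraph (Fin n)),
      HIntersecting H 𝒢 ∧ 𝒢.card = m} := by
    apply Nat.sSup_mem
    · exact ⟨0, ∅, fun G₁ h => absurd h (Finset.notMem_empty _), Finset.card_empty⟩
    · refine ⟨Fintype.card (SimpleGraph (Fin n)), ?_⟩
      rintro m ⟨𝒢, _, rfl⟩
      exact Finset.card_le_univ 𝒢
  obtain ⟨𝒢, h𝒢, hcard⟩ := hmem
  have hb := family_bound H hH n 𝒢 h𝒢
  rw [hcard] at hb
  have hchi : 1 ≤ H.chromaticNumber.toNat := by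
    by_contra hlt
    rw [not_le] at hlt
    have hcol : H.Colorable H.chromaticNumber.toNat :=
      SimpleGraph.colorable_chromaticNumber_of_fintype H
    have h0 : H.chromaticNumber.toNat = 0 := by omega
    rw [h0] at hcol
    obtain ⟨C⟩ := hcol
    have hnt : H.edgeSet.Nonempty := by
      rw [Set.nonempty_iff_ne_empty]
      intro h
      rw [h, Set.ncard_empty] at hH
      omega
    obtain ⟨e, he⟩ := hnt
    induction e using Sym2.ind with
    | _ u v => exact (C u).elim0
  have hb' : (maxFamily H n : ℝ) * 2 ^ (H.chromaticNumber.toNat - 1) < 2 ^ (n.choose 2) := by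
    exact_mod_cast hb
  have hexp : (2 : ℝ) ^ ((n.choose 2 : ℝ) - ((H.chromaticNumber.toNat : ℝ) - 1)) =
      2 ^ (n.choose 2) / 2 ^ (H.chromaticNumber.toNat - 1) := by
    rw [Real.rpow_sub (by norm_num), Real.rpow_natCast]
    congr 1
    have : ((H.chromaticNumber.toNat : ℝ) - 1) = ((H.chromaticNumber.toNat - 1 : ℕ) : ℝ) := by
      push_cast [hchi]
      ring
    rw [this, Real.rpow_natCast]
  rw [hexp, lt_div_iff₀ (by positivity)]
  exact hb'

end Pool.Agent.Lib.MP_cf191d_co
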